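import Pool.Agent.N658.FF.Stm

/-! FF/Weights: existence of weights. -/

set_option autoImplicit false

open scoped BigOperators Classical

noncomputable section

namespace Pool.Agent.N434.FF.Weights

open Pool.Agent.N658.FF

variable {ι : Type} [DecidableEq ι]

/-- the weights -/
def bw (near : ι → ι → Prop) {c : ℕ} (col : ι → Fin c) (Gam : ℝ) : List ι → ι → ℝ
  | [], _ => 0
  | t :: ts, j => if j = t then Gam ^ (c - (col t : ℕ)) else
      if near t j then 2 * bw near col Gam ts j else bw near col Gam ts j

theorem cond_congr (near : ι → ι → Prop) (γ : ℝ) : ∀ (ts : List ι) (b b' : ι → ℝ),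
    (∀ j ∈ ts, b j = b' j) → Cond near γ ts b → Cond near γ ts b' := by
  intro ts
  induction ts with
  | nil => intro _ _ _ _; trivial
  | cons t ts ih =>
    intro b b' h hc
    obtain ⟨h1, h2⟩ := hc
    refine ⟨?_, ?_⟩
    · rw [← h t (List.mem_cons_self ..)]
      have : (ts.map fun j => if near t j then b' j else 0) =
          ts.map fun j => if near t j then b j else 0 := by
        apply List.map_congr_left
        intro j hj
        rw [h j (List.mem_cons_of_mem _ hj)]
      rw [this]
      exact h1
    · refine ih _ _ ?_ h2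
      intro j hj
      rw [h j (List.mem_cons_of_mem _ hj)]

theorem bw_nonneg (near : ι → ι → Prop) {c : ℕ} (col : ι → Fin c) {Gam : ℝ} (hG : 1 ≤ Gam) :
    ∀ (ts : List ι) (j : ι), 0 ≤ bw near col Gam ts j := by
  intro ts
  induction ts with
  | nil => intro j; exact le_refl _
  | cons t ts ih =>
    intro j
    rw [bw]
    have := ih j
    split_ifs
    · positivity
    · positivity
    · exact this

theorem bw_le (near : ι → ι → Prop) {c : ℕ} (col : ι → Fin c) {Gam : ℝ} (hG : 1 ≤ Gam) :
    ∀ (ts : List ι) (j : ι), bw near col Gam ts j ≤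
      2 ^ (ts.filter fun t => near t j).length * Gam ^ (c - (col j : ℕ)) := by
  intro ts
  induction ts with
  | nil => intro j; rw [bw]; positivity
  | cons t ts ih =>
    intro j
    have hj := ih j
    have h0 : (0 : ℝ) ≤ Gam ^ (c - (col j : ℕ)) := by positivity
    rw [bw]
    split_ifs with h1 h2
    · rw [h1]
      have : (1 : ℝ) ≤ 2 ^ (List.filter (fun t' => decide (near t' t)) (t :: ts)).length :=
        one_le_pow₀ (by norm_num)
      rw [h1] at h0
      nlinarith
    · rw [List.filter_cons_of_pos (by simpa using h2), List.length_cons, pow_succ]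
      nlinarith
    · rw [List.filter_cons_of_neg (by simpa using h2)]
      exact hj

theorem sum_le (l : List ι) (p : ι → Prop) (f : ι → ℝ) (C : ℝ) (h : ∀ j ∈ l, p j → f j ≤ C) :
    (l.map fun j => if p j then f j else 0).sum ≤ (l.filter fun j => p j).length * C := by
  induction l with
  | nil => simp
  | cons a l ih =>
    have ih' := ih fun j hj => h j (List.mem_cons_of_mem _ hj)
    rw [List.map_cons, List.sum_cons]
    by_cases hp : p a
    · rw [List.filter_cons_of_pos (by simpa using hp), List.length_cons, if_pos hp]
      have := h a (List.mem_cons_self ..) hp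
      push_cast
      linarith
    · rw [List.filter_cons_of_neg (by simpa using hp), if_neg hp]
      linarith

theorem main (near : ι → ι → Prop) (c ν : ℕ) (col : ι → Fin c) (γ Gam : ℝ) (hγ : 0 < γ)
    (hG : 1 ≤ Gam) (hGG : γ * Gam = 1 + 2 * ν * 2 ^ ν) (hs : ∀ t j, near t j → near j t)
    (hc : ∀ t j, t ≠ j → near t j → col t ≠ col j) :
    ∀ ts : List ι, ts.Nodup → ts.Pairwise (fun t j => col t ≤ col j) →
      (∀ t, (ts.filter fun j => near t j).length ≤ ν) → Cond near γ ts (bw near col Gam ts) := by
  intro ts
  induction ts with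
  | nil => intro _ _ _; trivial
  | cons t ts ih =>
    intro hnd hp hν
    obtain ⟨ht, hnd'⟩ := List.nodup_cons.1 hnd
    obtain ⟨hp1, hp2⟩ := List.pairwise_cons.1 hp
    have hν' : ∀ t', (ts.filter fun j => near t' j).length ≤ ν := by
      intro t'
      refine le_trans ?_ (hν t')
      exact (List.Sublist.filter _ (List.sublist_cons_self t ts)).length_le
    have hne : ∀ j ∈ ts, j ≠ t := fun j hj h => ht (h ▸ hj)
    refine ⟨?_, ?_⟩
    · set C : ℝ := 2 ^ ν * Gam ^ (c - (col t : ℕ) - 1) with hC
      have h1 : (ts.map fun j => if near t j then bw near col Gam (t :: ts) j else 0).sum ≤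
          (ts.filter fun j => near t j).length * C := by
        apply sum_le
        intro j hj hn
        refine (bw_le near col hG (t :: ts) j).trans ?_
        have e1 : ((t :: ts).filter fun t' => near t' j).length ≤ ν := by
          have : ((t :: ts).filter fun t' => near t' j) =
              (t :: ts).filter fun t' => near j t' := by
            apply List.filter_congr
            intro x _
            exact decide_eq_decide.2 ⟨fun h => hs _ _ h, fun h => hs _ _ h⟩
          rw [this]
          exact hν j
        have e2 : c - (col j : ℕ) ≤ c - (col t : ℕ) - 1 := by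
          have h2 := hp1 j hj
          have h3 := hc t j (hne j hj).symm hn
          have h4 : (col t : ℕ) ≤ col j := h2
          have h5 : (col t : ℕ) ≠ col j := fun h => h3 (Fin.ext h)
          have := (col j).isLt
          omega
        exact mul_le_mul (pow_le_pow_right₀ (by norm_num) e1) (pow_le_pow_right₀ hG e2)
          (by positivity) (by positivity)
      have h2 : ((ts.filter fun j => near t j).length : ℝ) ≤ ν := by exact_mod_cast hν' t
      have hC0 : 0 ≤ C := by positivity
      have h3 : (ts.map fun j => if near t j then bw near col Gam (t :: ts) j else 0).sum ≤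
          ν * C := h1.trans (mul_le_mul_of_nonneg_right h2 hC0)
      have h4 : bw near col Gam (t :: ts) t = Gam ^ (c - (col t : ℕ)) := by
        rw [bw, if_pos rfl]
      rw [h4]
      have h5 : c - (col t : ℕ) = (c - (col t : ℕ) - 1) + 1 := by
        have := (col t).isLt
        omega
      have h6 : γ * Gam ^ (c - (col t : ℕ)) =
          (1 + 2 * ν * 2 ^ ν) * Gam ^ (c - (col t : ℕ) - 1) := by
        rw [← hGG]
        conv_lhs => rw [h5]
        rw [pow_succ]
        ring
      rw [h6]
      have h7 : (1 : ℝ) ≤ Gam ^ (c - (col t : ℕ) - 1) := one_le_pow₀ hG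
      have h8 : (0 : ℝ) ≤ ν * C := by positivity
      calc 1 + 3 / 2 * (ts.map fun j => if near t j then bw near col Gam (t :: ts) j else 0).sum
          ≤ Gam ^ (c - (col t : ℕ) - 1) + 2 * (ν * C) := by linarith
        _ = _ := by rw [hC]; ring
    · refine cond_congr near γ ts _ _ ?_ (ih hnd' hp2 hν')
      intro j hj
      rw [bw, if_neg (hne j hj)]
      by_cases hn : near t j
      · rw [if_pos hn, if_pos hn]; ring
      · rw [if_neg hn, if_neg hn]

theorem weights : StmWeights := by
  intro ι _ near c ν col γ hγ hγ1 hs hc ts hnd hp hν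
  set Gam : ℝ := (1 + 2 * ν * 2 ^ ν) / γ with hGam
  have hG : 1 ≤ Gam := by
    rw [hGam, le_div_iff₀ hγ]
    have : (0 : ℝ) ≤ 2 * ν * 2 ^ ν := by positivity
    linarith
  have hGG : γ * Gam = 1 + 2 * ν * 2 ^ ν := by rw [hGam]; field_simp
  refine ⟨bw near col Gam ts, bw_nonneg near col hG ts, fun j => ?_,
    main near c ν col γ Gam hγ hG hGG hs hc ts hnd hp hν⟩
  refine (bw_le near col hG ts j).trans ?_
  have e1 : (ts.filter fun t' => near t' j).length ≤ ν := by
    have : (ts.filter fun t' => near t' j) = ts.filter fun t' => near j t' := by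
      apply List.filter_congr
      intro x _
      exact decide_eq_decide.2 ⟨fun h => hs _ _ h, fun h => hs _ _ h⟩
    rw [this]
    exact hν j
  rw [wB]
  exact mul_le_mul (pow_le_pow_right₀ (by norm_num) e1) (pow_le_pow_right₀ hG (Nat.sub_le _ _))
    (by positivity) (by positivity)

end Pool.Agent.N434.FF.Weights
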